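import Mathlib
import Pool.Agent.H18.ArtinCone

/-!
# Artin cones are not convex in general

For every level `r ≥ 1`, every number of variables `n ≥ 3 (r + 1)` and every `d ≥ 2 r + 1`
the Artin cone `A^r_{n,2d}` is not convex.

Idea: let `R` be Robinson's ternary sextic, `p = g(x,z)^2 h(y,z)^2 R(x,y,z)` with products of
linear forms `g`, `h`.  Then `p (x^2+y^2)` is a sum of squares, while `p` vanishes on all points
but one of a large grid, so that `p` is not a sum of squares.  The sum of `r + 1` copies of `p` in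
separate blocks of variables has no nonzero sum of squares multiplier of degree `2 r`:
restricting to zeros of the other copies shows that every square root in the multiplier vanishes
when one block is set to zero, so each of its monomials involves all `r + 1` blocks.
The lemmas are in `Pool.Agent.H18.ArtinCone`.
-/

namespace Pool.Agent.Results.MP_9eb66c_ag.ArtinNotConvex

open MvPolynomial Pool.Agent.H18.ArtinCone

/-- The Artin cone `A^r_{n,2d}`: the real forms `p` of degree `2 d` in `n` variables for which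
there is a nonzero form `q` of degree `2 r`, itself a sum of squares of real polynomials, such
that `p * q` is a sum of squares of real polynomials. -/
def artinCone (n d r : ℕ) : Set (MvPolynomial (Fin n) ℝ) :=
  {p | p.IsHomogeneous (2 * d) ∧
    ∃ q : MvPolynomial (Fin n) ℝ, q ≠ 0 ∧ q.IsHomogeneous (2 * r) ∧ IsSumSq q ∧ IsSumSq (p * q)}

lemma mem_artinCone_block {n r : ℕ} (hr : 1 ≤ r) (hn : 3 * (r + 1) ≤ n) (e f : ℕ)
    (i : Fin (r + 1)) :
    ((r + 1 : ℕ) : ℝ) • rename (bk hn i) (pform e f) ∈ artinCone n (e + f + 3) r := by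
  have hinj : Function.Injective (bk hn i) := fun a b hab => (bk_inj hn hab).2
  refine ⟨?_, rename (bk hn i) (qform (r - 1)), ?_, ?_, ?_, ?_⟩
  · rw [smul_eq_C_mul]
    exact ((pform_isHomogeneous e f).rename_isHomogeneous).C_mul _
  · intro h
    exact qform_ne_zero (r - 1) ((map_eq_zero_iff _ (rename_injective _ hinj)).mp h)
  · have h := (qform_isHomogeneous (r - 1)).rename_isHomogeneous (f := bk hn i)
    have h2 : r - 1 + 1 = r := by omega
    rwa [h2] at h
  · exact isSumSq_map (rename (bk hn i) : MvPolynomial (Fin 3) ℝ →ₐ[ℝ] _).toRingHom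
      (qform_isSumSq (r - 1))
  · have h1 := isSumSq_map (rename (bk hn i) : MvPolynomial (Fin 3) ℝ →ₐ[ℝ] _).toRingHom
      (pq_isSumSq e f (r - 1))
    have h2 : (((r + 1 : ℕ) : ℝ) • rename (bk hn i) (pform e f)) * rename (bk hn i) (qform (r - 1)) =
        ((r + 1 : ℕ) : MvPolynomial (Fin n) ℝ) *
          rename (bk hn i) (pform e f * qform (r - 1)) := by
      rw [map_mul, smul_eq_C_mul, map_natCast]
      ring
    rw [h2]
    exact (IsSumSq.natCast (r + 1)).mul h1

/-- For every `r ≥ 1`, `n ≥ 3 (r + 1)` and `d ≥ 2 r + 1` the Artin cone `A^r_{n,2d}` is not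
convex.  In particular (`r = 1`, `n = 6`, `d = 3`) the set `A^1_{6,6}` is not convex. -/
theorem result (r n d : ℕ) (hr : 1 ≤ r) (hn : 3 * (r + 1) ≤ n) (hd : 2 * r + 1 ≤ d) :
    ¬ Convex ℝ (artinCone n d r) := by
  intro hconv
  obtain ⟨e, f, he, hf, hd'⟩ : ∃ e f : ℕ, r ≤ e + 1 ∧ r ≤ f + 1 ∧ d = e + f + 3 :=
    ⟨r - 1, d - r - 2, by omega, by omega, by omega⟩
  subst hd'
  have h1 : ∑ i : Fin (r + 1), (1 / ((r + 1 : ℕ) : ℝ)) •
      (((r + 1 : ℕ) : ℝ) • rename (bk hn i) (pform e f)) ∈ artinCone n (e + f + 3) r := by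
    apply hconv.sum_mem
    · intro i _
      positivity
    · rw [Finset.sum_const, Finset.card_univ, Fintype.card_fin, nsmul_eq_mul]
      have : ((r + 1 : ℕ) : ℝ) ≠ 0 := by positivity
      field_simp
    · intro i _
      exact mem_artinCone_block hr hn e f i
  have h2 : ∑ i : Fin (r + 1), (1 / ((r + 1 : ℕ) : ℝ)) •
      (((r + 1 : ℕ) : ℝ) • rename (bk hn i) (pform e f)) = ∑ i, rename (bk hn i) (pform e f) := by
    refine Finset.sum_congr rfl fun i _ => ?_
    rw [smul_smul]
    have : ((r + 1 : ℕ) : ℝ) ≠ 0 := by positivity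
    rw [one_div_mul_cancel this, one_smul]
  rw [h2] at h1
  obtain ⟨_, q, hq0, hq, hq1, hq2⟩ := h1
  exact hq0 (no_multiplier hn e f he hf q hq hq1 hq2)

end Pool.Agent.Results.MP_9eb66c_ag.ArtinNotConvex
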